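import Pool.Agent.H306R2.RZ.Defs5
import Pool.Agent.H708R2.RZ_E1

set_option autoImplicit false

/-!
Project RZ, task LS2: second moment of real character sums, elementary.
-/

namespace Pool.Agent.H58R2.RZ5LS2

open Finset Filter Topology MeasureTheory Pool.Agent.H306R2.RZ

noncomputable section

theorem js_mul_left (a b : ℤ) (n : ℕ) : js (a * b) n = js a n * js b n := by
  unfold js
  rw [jacobiSym.mul_left]
  push_cast
  ring

theorem expand (S : Finset ℕ) (H : ℕ) (c : ℕ → ℂ) (hc : ∀ h, ‖c h‖ ≤ 1) :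
    ∑ κ ∈ S, ‖∑ h ∈ Icc 1 H, c h * (js h κ : ℂ)‖ ^ 2 ≤
      ∑ h1 ∈ Icc 1 H, ∑ h2 ∈ Icc 1 H, |∑ κ ∈ S, js ((h1 : ℤ) * h2) κ| := by
  have h0 : 0 ≤ ∑ κ ∈ S, ‖∑ h ∈ Icc 1 H, c h * (js h κ : ℂ)‖ ^ 2 :=
    sum_nonneg fun _ _ => by positivity
  have h1 : ((∑ κ ∈ S, ‖∑ h ∈ Icc 1 H, c h * (js h κ : ℂ)‖ ^ 2 : ℝ) : ℂ) =
      ∑ h1 ∈ Icc 1 H, ∑ h2 ∈ Icc 1 H, (c h1 * starRingEnd ℂ (c h2)) *
        ((∑ κ ∈ S, js ((h1 : ℤ) * h2) κ : ℝ) : ℂ) := by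
    have h2 : ∀ κ ∈ S, ((‖∑ h ∈ Icc 1 H, c h * (js h κ : ℂ)‖ ^ 2 : ℝ) : ℂ) =
        ∑ h1 ∈ Icc 1 H, ∑ h2 ∈ Icc 1 H, (c h1 * starRingEnd ℂ (c h2)) *
          ((js ((h1 : ℤ) * h2) κ : ℝ) : ℂ) := by
      intro κ _
      push_cast
      rw [← Complex.mul_conj', map_sum, sum_mul_sum]
      refine sum_congr rfl fun a _ => sum_congr rfl fun b _ => ?_
      rw [map_mul, Complex.conj_ofReal, js_mul_left]
      push_cast
      ring
    rw [Complex.ofReal_sum, sum_congr rfl h2, sum_comm]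
    refine sum_congr rfl fun a _ => ?_
    rw [sum_comm]
    refine sum_congr rfl fun b _ => ?_
    rw [Complex.ofReal_sum, mul_sum]
  have h3 : ∑ κ ∈ S, ‖∑ h ∈ Icc 1 H, c h * (js h κ : ℂ)‖ ^ 2 =
      ‖((∑ κ ∈ S, ‖∑ h ∈ Icc 1 H, c h * (js h κ : ℂ)‖ ^ 2 : ℝ) : ℂ)‖ := by
    rw [Complex.norm_real, Real.norm_eq_abs, abs_of_nonneg h0]
  rw [h3, h1]
  refine (norm_sum_le _ _).trans (sum_le_sum fun a _ => ?_)
  refine (norm_sum_le _ _).trans (sum_le_sum fun b _ => ?_)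
  rw [norm_mul, norm_mul, Complex.norm_real, Real.norm_eq_abs, RCLike.norm_conj]
  have e1 : ‖c a‖ * ‖c b‖ ≤ 1 := mul_le_one₀ (hc a) (norm_nonneg _) (hc b)
  exact mul_le_of_le_one_left (abs_nonneg _) e1

/-- the number of pairs whose product is a square -/
theorem squares (δ : ℝ) (hδ : 0 < δ) : ∃ C : ℝ, 0 < C ∧ ∀ H : ℕ, 1 ≤ H →
    ((((Icc 1 H) ×ˢ (Icc 1 H)).filter fun p : ℕ × ℕ => IsSquare (p.1 * p.2)).card : ℝ) ≤
      C * (H : ℝ) ^ (2 * δ) * H := by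
  obtain ⟨C, hC, hdiv⟩ := Pool.Agent.Helper112.divisor_bound δ hδ
  refine ⟨C, hC, fun H hH => ?_⟩
  set P := ((Icc 1 H) ×ˢ (Icc 1 H)).filter fun p : ℕ × ℕ => IsSquare (p.1 * p.2) with hP
  have hmaps : ∀ p ∈ P, Nat.sqrt (p.1 * p.2) ∈ Icc 1 H := by
    intro p hp
    rw [hP, mem_filter, mem_product, mem_Icc, mem_Icc] at hp
    obtain ⟨⟨⟨a1, a2⟩, b1, b2⟩, m, hm⟩ := hp
    rw [hm, Nat.sqrt_eq, mem_Icc]
    constructor
    · have : 0 < p.1 * p.2 := Nat.mul_pos a1 b1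
      rw [hm] at this
      exact Nat.pos_of_mul_pos_left this
    · have h1 : p.1 * p.2 ≤ H * H := Nat.mul_le_mul a2 b2
      rw [hm] at h1
      exact Nat.mul_self_le_mul_self_iff.1 h1
  have hfib : ∀ m ∈ Icc 1 H, ((P.filter fun p => Nat.sqrt (p.1 * p.2) = m).card : ℝ) ≤
      C * (H : ℝ) ^ (2 * δ) := by
    intro m hm
    rw [mem_Icc] at hm
    have hm1 : 1 ≤ m ^ 2 := Nat.one_le_pow _ _ hm.1
    have h1 : (P.filter fun p => Nat.sqrt (p.1 * p.2) = m).card ≤ (m ^ 2).divisors.card := by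
      refine card_le_card_of_injOn (fun p => p.1) ?_ ?_
      · intro p hp
        rw [mem_coe, mem_filter, hP, mem_filter] at hp
        obtain ⟨⟨-, n, hn⟩, hp2⟩ := hp
        rw [hn, Nat.sqrt_eq] at hp2
        rw [mem_coe, Nat.mem_divisors]
        refine ⟨⟨p.2, ?_⟩, by omega⟩
        rw [hn, hp2, sq]
      · intro p hp p' hp' h
        rw [mem_coe, mem_filter, hP, mem_filter, mem_product, mem_Icc] at hp hp'
        obtain ⟨⟨hpa, n, hn⟩, hp2⟩ := hp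
        obtain ⟨⟨-, n', hn'⟩, hp2'⟩ := hp'
        rw [hn, Nat.sqrt_eq] at hp2
        rw [hn', Nat.sqrt_eq] at hp2'
        have h' : p.1 = p'.1 := h
        have h3 : p.1 * p.2 = p.1 * p'.2 := by
          rw [hn, h', hn', hp2, hp2']
        have h4 : 0 < p.1 := hpa.1.1
        exact Prod.ext h' (Nat.eq_of_mul_eq_mul_left h4 h3)
    have h2 := hdiv (m ^ 2) hm1
    have h3 : ((m ^ 2 : ℕ) : ℝ) ^ δ ≤ (H : ℝ) ^ (2 * δ) := by
      have e1 : ((m ^ 2 : ℕ) : ℝ) = (m : ℝ) ^ (2 : ℝ) := by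
        push_cast
        rw [← Real.rpow_natCast]
        norm_num
      rw [e1, ← Real.rpow_mul (by positivity)]
      apply Real.rpow_le_rpow (by positivity) _ (by positivity)
      exact_mod_cast hm.2
    calc ((P.filter fun p => Nat.sqrt (p.1 * p.2) = m).card : ℝ) ≤ ((m ^ 2).divisors.card : ℝ) := by
          exact_mod_cast h1
      _ ≤ C * ((m ^ 2 : ℕ) : ℝ) ^ δ := h2
      _ ≤ C * (H : ℝ) ^ (2 * δ) := by gcongr
  rw [card_eq_sum_card_fiberwise (f := fun p : ℕ × ℕ => Nat.sqrt (p.1 * p.2)) (t := Icc 1 H) hmaps]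
  push_cast
  calc ∑ m ∈ Icc 1 H, ((P.filter fun p => Nat.sqrt (p.1 * p.2) = m).card : ℝ)
      ≤ ∑ m ∈ Icc 1 H, C * (H : ℝ) ^ (2 * δ) := sum_le_sum hfib
    _ = C * (H : ℝ) ^ (2 * δ) * H := by
      rw [sum_const, Nat.card_Icc, nsmul_eq_mul, Nat.add_sub_cancel]
      ring

/-- second moment, elementary -/
theorem LS2 (ε : ℝ) (hε : 0 < ε) : ∃ C : ℝ, 0 < C ∧ ∀ (K H : ℕ) (c : ℕ → ℂ), 1 ≤ K → 1 ≤ H →
    (∀ h, ‖c h‖ ≤ 1) →
    ∑ κ ∈ osf K, ‖∑ h ∈ Icc 1 H, c h * (js h κ : ℂ)‖ ^ 2 ≤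
      C * ((K : ℝ) * H) ^ ε * ((K : ℝ) + (H : ℝ) ^ 2) * H := by
  obtain ⟨C1, hC1, hsq⟩ := squares (ε / 2) (by positivity)
  obtain ⟨C2, hC2, hin⟩ := Pool.Agent.H708R2.RZE1.inner (ε / 4) (by positivity)
  refine ⟨C1 + C2 * (2 : ℝ) ^ (ε / 4), by positivity, fun K H c hK hH hc => ?_⟩
  have hHr : (1 : ℝ) ≤ H := by exact_mod_cast hH
  have hKr : (1 : ℝ) ≤ K := by exact_mod_cast hK
  set S := (Icc 1 K).filter fun n => n.Coprime 2 with hS
  have hsub : osf K ⊆ S := by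
    intro n hn
    rw [osf, mem_filter] at hn
    rw [hS, mem_filter]
    exact ⟨hn.1, Nat.coprime_two_right.2 hn.2.1⟩
  have h1 : ∑ κ ∈ osf K, ‖∑ h ∈ Icc 1 H, c h * (js h κ : ℂ)‖ ^ 2 ≤
      ∑ h1 ∈ Icc 1 H, ∑ h2 ∈ Icc 1 H, |∑ κ ∈ S, js ((h1 : ℤ) * h2) κ| :=
    (sum_le_sum_of_subset_of_nonneg hsub fun _ _ _ => by positivity).trans (expand S H c hc)
  refine h1.trans ?_
  rw [← sum_product' (Icc 1 H) (Icc 1 H) (fun h1 h2 : ℕ => |∑ κ ∈ S, js ((h1 : ℤ) * h2) κ|)]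
  rw [← sum_filter_add_sum_filter_not _ (fun p : ℕ × ℕ => IsSquare (p.1 * p.2))]
  have hA : ∑ p ∈ ((Icc 1 H) ×ˢ (Icc 1 H)).filter (fun p : ℕ × ℕ => IsSquare (p.1 * p.2)),
      |∑ κ ∈ S, js ((p.1 : ℤ) * p.2) κ| ≤ C1 * (H : ℝ) ^ ε * H * K := by
    calc ∑ p ∈ ((Icc 1 H) ×ˢ (Icc 1 H)).filter (fun p : ℕ × ℕ => IsSquare (p.1 * p.2)),
        |∑ κ ∈ S, js ((p.1 : ℤ) * p.2) κ|
        ≤ ∑ p ∈ ((Icc 1 H) ×ˢ (Icc 1 H)).filter (fun p : ℕ × ℕ => IsSquare (p.1 * p.2)),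
          (K : ℝ) := by
          refine sum_le_sum fun p _ => ?_
          calc |∑ κ ∈ S, js ((p.1 : ℤ) * p.2) κ| ≤ ∑ κ ∈ S, |js ((p.1 : ℤ) * p.2) κ| :=
                abs_sum_le_sum_abs _ _
            _ ≤ ∑ κ ∈ S, (1 : ℝ) := sum_le_sum fun κ _ => Pool.Agent.H708R2.RZE1.js_abs _ _
            _ = (S.card : ℝ) := by simp
            _ ≤ (K : ℝ) := by
              have : S.card ≤ K := by
                refine (card_filter_le _ _).trans ?_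
                simp
              exact_mod_cast this
      _ = ((((Icc 1 H) ×ˢ (Icc 1 H)).filter fun p : ℕ × ℕ => IsSquare (p.1 * p.2)).card : ℝ) *
          K := by rw [sum_const, nsmul_eq_mul]
      _ ≤ (C1 * (H : ℝ) ^ (2 * (ε / 2)) * H) * K := by
          apply mul_le_mul_of_nonneg_right (hsq H hH) (by positivity)
      _ = C1 * (H : ℝ) ^ ε * H * K := by
          rw [show 2 * (ε / 2) = ε by ring]
  have hB : ∑ p ∈ ((Icc 1 H) ×ˢ (Icc 1 H)).filter (fun p : ℕ × ℕ => ¬ IsSquare (p.1 * p.2)),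
      |∑ κ ∈ S, js ((p.1 : ℤ) * p.2) κ| ≤ C2 * (2 : ℝ) ^ (ε / 4) * (H : ℝ) ^ ε * H * H ^ 2 := by
    calc ∑ p ∈ ((Icc 1 H) ×ˢ (Icc 1 H)).filter (fun p : ℕ × ℕ => ¬ IsSquare (p.1 * p.2)),
        |∑ κ ∈ S, js ((p.1 : ℤ) * p.2) κ|
        ≤ ∑ p ∈ ((Icc 1 H) ×ˢ (Icc 1 H)).filter (fun p : ℕ × ℕ => ¬ IsSquare (p.1 * p.2)),
          C2 * ((H : ℝ) ^ ε * H) * (2 : ℝ) ^ (ε / 4) := by
          refine sum_le_sum fun p hp => ?_
          rw [mem_filter, mem_product, mem_Icc, mem_Icc] at hp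
          obtain ⟨⟨⟨a1, a2⟩, b1, b2⟩, hns⟩ := hp
          have hns' : ¬ IsSquare ((p.1 : ℤ) * p.2) := by
            rintro ⟨m, hm⟩
            apply hns
            refine ⟨m.natAbs, ?_⟩
            have := congrArg Int.natAbs hm
            rw [Int.natAbs_mul, Int.natAbs_mul, Int.natAbs_natCast, Int.natAbs_natCast] at this
            exact this
          have h2 := hin ((p.1 : ℤ) * p.2) 2 K hns' even_two two_ne_zero
          rw [← sum_filter] at h2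
          refine h2.trans ?_
          have h3 : ((((p.1 : ℤ) * p.2).natAbs : ℕ) : ℝ) ≤ (H : ℝ) ^ (2 : ℝ) := by
            rw [Int.natAbs_mul, Int.natAbs_natCast, Int.natAbs_natCast]
            have : p.1 * p.2 ≤ H ^ 2 := by
              rw [sq]
              exact Nat.mul_le_mul a2 b2
            have h4 : ((p.1 * p.2 : ℕ) : ℝ) ≤ ((H ^ 2 : ℕ) : ℝ) := by exact_mod_cast this
            refine h4.trans (le_of_eq ?_)
            push_cast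
            rw [← Real.rpow_natCast]
            norm_num
          have h5 : ((((p.1 : ℤ) * p.2).natAbs : ℕ) : ℝ) ^ (1 / 2 + 2 * (ε / 4)) ≤
              (H : ℝ) ^ ε * H := by
            calc ((((p.1 : ℤ) * p.2).natAbs : ℕ) : ℝ) ^ (1 / 2 + 2 * (ε / 4))
                ≤ ((H : ℝ) ^ (2 : ℝ)) ^ (1 / 2 + 2 * (ε / 4)) :=
                  Real.rpow_le_rpow (by positivity) h3 (by positivity)
              _ = (H : ℝ) ^ (ε + 1) := by
                  rw [← Real.rpow_mul (by positivity)]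
                  congr 1
                  ring
              _ = (H : ℝ) ^ ε * H := by
                  rw [Real.rpow_add (by positivity), Real.rpow_one]
          have h6 : ((2 : ℕ) : ℝ) ^ (ε / 4) = (2 : ℝ) ^ (ε / 4) := by norm_num
          rw [h6]
          gcongr
      _ = ((((Icc 1 H) ×ˢ (Icc 1 H)).filter fun p : ℕ × ℕ => ¬ IsSquare (p.1 * p.2)).card : ℝ) *
          (C2 * ((H : ℝ) ^ ε * H) * (2 : ℝ) ^ (ε / 4)) := by rw [sum_const, nsmul_eq_mul]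
      _ ≤ (H : ℝ) ^ 2 * (C2 * ((H : ℝ) ^ ε * H) * (2 : ℝ) ^ (ε / 4)) := by
          apply mul_le_mul_of_nonneg_right _ (by positivity)
          have : (((Icc 1 H) ×ˢ (Icc 1 H)).filter
              fun p : ℕ × ℕ => ¬ IsSquare (p.1 * p.2)).card ≤ H ^ 2 := by
            refine (card_filter_le _ _).trans ?_
            rw [card_product]
            simp [sq]
          exact_mod_cast this
      _ = C2 * (2 : ℝ) ^ (ε / 4) * (H : ℝ) ^ ε * H * H ^ 2 := by ring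
  have hKH : (H : ℝ) ^ ε ≤ ((K : ℝ) * H) ^ ε := by
    apply Real.rpow_le_rpow (by positivity) _ hε.le
    nlinarith
  calc _ ≤ C1 * (H : ℝ) ^ ε * H * K + C2 * (2 : ℝ) ^ (ε / 4) * (H : ℝ) ^ ε * H * H ^ 2 :=
        add_le_add hA hB
    _ ≤ C1 * ((K : ℝ) * H) ^ ε * H * K +
        C2 * (2 : ℝ) ^ (ε / 4) * ((K : ℝ) * H) ^ ε * H * H ^ 2 := by gcongr
    _ ≤ C1 * ((K : ℝ) * H) ^ ε * H * (K + (H : ℝ) ^ 2) +
        C2 * (2 : ℝ) ^ (ε / 4) * ((K : ℝ) * H) ^ ε * H * (K + (H : ℝ) ^ 2) := by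
        gcongr
        · nlinarith
        · linarith
    _ = (C1 + C2 * (2 : ℝ) ^ (ε / 4)) * ((K : ℝ) * H) ^ ε * ((K : ℝ) + (H : ℝ) ^ 2) * H := by ring

end

end Pool.Agent.H58R2.RZ5LS2
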