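import Pool.Agent.H223.EM.Defs
import Pool.Agent.H950R2.Shift3
import Pool.Agent.H405R2.SM_T6A
import Pool.Agent.H777R2.SM_T6D

set_option autoImplicit false

/-!
T5 of the eighth moment project (block TW): the polar term, the shift of the contour
from `Re s = 2` to `Re s = -1/4` in the integral of `ζ(s)^2 V^s Γ(s+k)`.
-/

namespace Pool.Agent.H58R2.EM

open Finset Filter Topology MeasureTheory Complex
open Pool.Agent.H306R2 Pool.Agent.H306R2.SM Pool.Agent.H223.EM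

noncomputable section

namespace T5

/-- the entire function `(s - 1) ζ(s)` -/
def Z (s : ℂ) : ℂ := if s = 1 then 1 else (s - 1) * riemannZeta s

theorem Z_of_ne {s : ℂ} (hs : s ≠ 1) : Z s = (s - 1) * riemannZeta s := if_neg hs

theorem Z_one : Z 1 = 1 := if_pos rfl

theorem Z_hasDerivAt_one : HasDerivAt Z (Real.eulerMascheroniConstant : ℂ) 1 := by
  rw [hasDerivAt_iff_tendsto_slope]
  refine tendsto_riemannZeta_sub_one_div.congr' ?_
  filter_upwards [self_mem_nhdsWithin] with s hs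
  have hs1 : s ≠ 1 := hs
  have hs2 : s - 1 ≠ 0 := sub_ne_zero.2 hs1
  rw [slope_def_field, Z_of_ne hs1, Z_one]
  field_simp

theorem Z_differentiable : Differentiable ℂ Z := by
  intro s
  by_cases hs : s = 1
  · rw [hs]
    exact Z_hasDerivAt_one.differentiableAt
  · have h1 : DifferentiableAt ℂ (fun s : ℂ => (s - 1) * riemannZeta s) s :=
      (differentiableAt_id.sub_const 1).mul (differentiableAt_riemannZeta hs)
    refine h1.congr_of_eventuallyEq ?_
    filter_upwards [isOpen_ne.mem_nhds hs] with z hz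
    exact Z_of_ne hz

/-- the integrand -/
def F (k : ℕ) (V : ℝ) (s : ℂ) : ℂ := riemannZeta s ^ 2 * (V : ℂ) ^ s * Complex.Gamma (s + k)

/-- `(s - 1)^2` times the integrand -/
def H (k : ℕ) (V : ℝ) (s : ℂ) : ℂ := Z s ^ 2 * (V : ℂ) ^ s * Complex.Gamma (s + k)

theorem gamma_diff (k : ℕ) (hk : 1 ≤ k) {s : ℂ} (hs : -1 < s.re) :
    DifferentiableAt ℂ (fun s : ℂ => Complex.Gamma (s + k)) s := by
  have hk' : (1 : ℝ) ≤ k := by exact_mod_cast hk
  have h2 : DifferentiableAt ℂ Complex.Gamma (s + k) := by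
    apply Complex.differentiableAt_Gamma
    intro m h
    have := congrArg Complex.re h
    simp at this
    have h4 : (0 : ℝ) ≤ m := Nat.cast_nonneg m
    linarith
  exact DifferentiableAt.comp (g := Complex.Gamma) (f := fun s : ℂ => s + k) s h2 (by fun_prop)

theorem cpow_diff {V : ℝ} (hV : 0 < V) (s : ℂ) : DifferentiableAt ℂ (fun s : ℂ => (V : ℂ) ^ s) s :=
  differentiableAt_id.const_cpow (Or.inl (by exact_mod_cast hV.ne'))

theorem H_diff (k : ℕ) (hk : 1 ≤ k) {V : ℝ} (hV : 0 < V) :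
    DifferentiableOn ℂ (H k V) {s : ℂ | -1 < s.re} := by
  intro s hs
  have hs' : -1 < s.re := hs
  have h1 := Z_differentiable s
  exact (((h1.pow 2).mul (cpow_diff hV s)).mul (gamma_diff k hk hs')).differentiableWithinAt

theorem H_one (k : ℕ) (V : ℝ) : H k V 1 = (V : ℂ) * (k.factorial : ℂ) := by
  unfold H
  rw [Z_one, one_pow, one_mul, Complex.cpow_one, add_comm, Complex.Gamma_nat_eq_factorial]

theorem H_hasDerivAt (k : ℕ) {V : ℝ} (hV : 0 < V) :
    HasDerivAt (H k V) ((((k.factorial : ℝ) * V * (Real.log V + bk k) : ℝ)) : ℂ) 1 := by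
  have hV' : (V : ℂ) ≠ 0 := by exact_mod_cast hV.ne'
  have h1 := Z_hasDerivAt_one.fun_pow 2
  have h2 : HasDerivAt (fun s : ℂ => (V : ℂ) ^ s) ((V : ℂ) ^ (1 : ℂ) * Complex.log V * 1) 1 :=
    (hasDerivAt_id (1 : ℂ)).const_cpow (Or.inl hV')
  have h3 : HasDerivAt (fun s : ℂ => Complex.Gamma (s + k))
      (k.factorial * (-(Real.eulerMascheroniConstant : ℂ) + harmonic k)) 1 := by
    have h4 := Complex.hasDerivAt_Gamma_nat k
    have h5 : HasDerivAt Complex.Gamma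
        (k.factorial * (-(Real.eulerMascheroniConstant : ℂ) + harmonic k)) ((1 : ℂ) + k) := by
      rw [add_comm (1 : ℂ) (k : ℂ)]
      exact h4
    exact h5.comp_add_const 1 (k : ℂ)
  have h6 := (h1.mul h2).mul h3
  refine HasDerivAt.congr_deriv h6 ?_
  rw [Z_one, Complex.cpow_one, ← Complex.ofReal_log hV.le]
  have e : Complex.Gamma ((1 : ℂ) + k) = (k.factorial : ℂ) := by
    rw [add_comm, Complex.Gamma_nat_eq_factorial]
  simp only [Pi.mul_apply, Z_one, Complex.cpow_one, e]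
  unfold bk
  push_cast
  ring

theorem dslope_eq (f : ℂ → ℂ) (z : ℂ) : f z = f 1 + (z - 1) * dslope f 1 z := by
  have h := sub_smul_dslope f 1 z
  rw [smul_eq_mul] at h
  rw [h]
  ring

theorem isOpen_U : IsOpen {s : ℂ | -1 < s.re} := isOpen_lt continuous_const Complex.continuous_re

/-- the expansion at the pole -/
theorem expand (k : ℕ) (hk : 1 ≤ k) {V : ℝ} (hV : 0 < V) : ∃ G : ℂ → ℂ,
    (∀ z : ℂ, -1 < z.re → DifferentiableAt ℂ G z) ∧
    ∀ z : ℂ, z ≠ 1 → F k V z = 0 / (z - 1) ^ 3 + ((V : ℂ) * (k.factorial : ℂ)) / (z - 1) ^ 2 +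
      ((((k.factorial : ℝ) * V * (Real.log V + bk k) : ℝ)) : ℂ) / (z - 1) + G z := by
  have hs : {s : ℂ | -1 < s.re} ∈ 𝓝 (1 : ℂ) := isOpen_U.mem_nhds (by simp)
  have h1 : DifferentiableOn ℂ (dslope (H k V) 1) {s : ℂ | -1 < s.re} :=
    (Complex.differentiableOn_dslope hs).2 (H_diff k hk hV)
  have h2 : DifferentiableOn ℂ (dslope (dslope (H k V) 1) 1) {s : ℂ | -1 < s.re} :=
    (Complex.differentiableOn_dslope hs).2 h1
  refine ⟨_, fun z hz => (h2 z hz).differentiableAt (isOpen_U.mem_nhds hz), fun z hz => ?_⟩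
  have hw : z - 1 ≠ 0 := sub_ne_zero.2 hz
  have e1 := dslope_eq (H k V) z
  have e2 := dslope_eq (dslope (H k V) 1) z
  rw [dslope_same, (H_hasDerivAt k hV).deriv] at e2
  rw [H_one] at e1
  have e3 : F k V z = H k V z / (z - 1) ^ 2 := by
    unfold F H
    rw [Z_of_ne hz]
    field_simp
  rw [e3, e1, e2]
  field_simp
  ring

theorem zeta_growth : ∃ C : ℝ, ∃ A : ℕ, 0 < C ∧ ∀ s : ℂ, -(1 / 2) ≤ s.re → s.re ≤ 3 →
    1 ≤ |s.im| → ‖riemannZeta s‖ ≤ C * |s.im| ^ A := by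
  obtain ⟨C, A, h⟩ := Pool.Agent.H405R2.SM.hurwitz_growth 1
  refine ⟨|C| + 1, A, by positivity, fun s h1 h2 h3 => ?_⟩
  have h4 := h 0 s h1 h2 h3
  rw [map_zero, HurwitzZeta.hurwitzZeta_zero] at h4
  refine h4.trans ?_
  have h5 : C ≤ |C| + 1 := (le_abs_self C).trans (by linarith)
  exact mul_le_mul_of_nonneg_right h5 (by positivity)

theorem F_bound (k : ℕ) (hk : 1 ≤ k) {V : ℝ} (hV : 0 < V) : ∃ C : ℝ, 0 < C ∧
    ∀ z : ℂ, -(1 / 4) ≤ z.re → z.re ≤ 2 → 1 ≤ |z.im| → ‖F k V z‖ ≤ C / |z.im| ^ 2 := by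
  obtain ⟨C, A, hC, hg⟩ := zeta_growth
  have hk' : (1 : ℝ) ≤ k := by exact_mod_cast hk
  have hV1 : 0 < V ^ (-(1 / 4) : ℝ) := Real.rpow_pos_of_pos hV _
  have hV2 : 0 < V ^ (2 : ℝ) := Real.rpow_pos_of_pos hV _
  set N : ℕ := 2 * A + 2 with hN
  have hΓ : 0 < Real.Gamma ((2 : ℝ) + k + N) := Real.Gamma_pos_of_pos (by positivity)
  refine ⟨C ^ 2 * (V ^ (-(1 / 4) : ℝ) + V ^ (2 : ℝ)) * (4 ^ N * Real.Gamma ((2 : ℝ) + k + N)),
    by positivity, fun z h0 h1 h2 => ?_⟩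
  set y := |z.im| with hy
  have hy0 : 0 < y := by linarith
  have b1 := hg z (by linarith) (by linarith) h2
  have b1' : ‖riemannZeta z‖ ^ 2 ≤ (C * y ^ A) ^ 2 := pow_le_pow_left₀ (norm_nonneg _) b1 2
  have b2 : ‖(V : ℂ) ^ z‖ ≤ V ^ (-(1 / 4) : ℝ) + V ^ (2 : ℝ) := by
    rw [Complex.norm_cpow_eq_rpow_re_of_pos hV]
    rcases le_or_gt 1 V with h | h
    · have := Real.rpow_le_rpow_of_exponent_le h h1
      linarith
    · have := Real.rpow_le_rpow_of_exponent_ge hV h.le h0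
      linarith
  have b3 : ‖Complex.Gamma (z + k)‖ ≤ 4 ^ N * Real.Gamma ((2 : ℝ) + k + N) / y ^ N := by
    have h3 := Pool.Agent.H777R2.SM.norm_Gamma_decay (z + k) (by simp; linarith) N
    have e1 : (z + (k : ℂ)).re = z.re + k := by simp
    have e2 : (z + (k : ℂ)).im = z.im := by simp
    rw [e1, e2] at h3
    refine h3.trans ?_
    have h4 : Real.Gamma (z.re + k + N) ≤ Real.Gamma ((2 : ℝ) + k + N) := by
      have hN2 : (2 : ℝ) ≤ N := by
        rw [hN]; push_cast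
        have : (0 : ℝ) ≤ A := Nat.cast_nonneg A
        linarith
      apply Real.Gamma_strictMonoOn_Ici.monotoneOn
      · show (2 : ℝ) ≤ _
        linarith
      · show (2 : ℝ) ≤ _
        linarith
      · linarith
    have h5 : y ^ N ≤ (1 + y) ^ N := pow_le_pow_left₀ hy0.le (by linarith) N
    have h6 : 0 ≤ Real.Gamma (z.re + k + N) := (Real.Gamma_pos_of_pos (by
      have : (0 : ℝ) ≤ N := Nat.cast_nonneg N
      linarith)).le
    gcongr
  unfold F
  rw [norm_mul, norm_mul, norm_pow]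
  calc ‖riemannZeta z‖ ^ 2 * ‖(V : ℂ) ^ z‖ * ‖Complex.Gamma (z + k)‖
      ≤ (C * y ^ A) ^ 2 * (V ^ (-(1 / 4) : ℝ) + V ^ (2 : ℝ)) *
        (4 ^ N * Real.Gamma ((2 : ℝ) + k + N) / y ^ N) := by gcongr
    _ = C ^ 2 * (V ^ (-(1 / 4) : ℝ) + V ^ (2 : ℝ)) * (4 ^ N * Real.Gamma ((2 : ℝ) + k + N)) /
        y ^ 2 := by
        have e : y ^ N = (y ^ A) ^ 2 * y ^ 2 := by
          rw [hN, pow_add, pow_mul, ← pow_mul, ← pow_mul, mul_comm]
          ring
        rw [e]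
        field_simp

theorem F_cont (k : ℕ) (hk : 1 ≤ k) {V : ℝ} (hV : 0 < V) {x : ℝ} (hx0 : -1 < x) (hx : x ≠ 1) :
    Continuous (fun y : ℝ => F k V ((x : ℂ) + (y : ℂ) * I)) := by
  rw [continuous_iff_continuousAt]
  intro y
  have hre : -1 < ((x : ℂ) + (y : ℂ) * I).re := by simpa using hx0
  have hne : (x : ℂ) + (y : ℂ) * I ≠ 1 := by
    intro h
    have := congrArg Complex.re h
    simp at this
    exact hx this
  have h2 : ContinuousAt (F k V) ((x : ℂ) + (y : ℂ) * I) := by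
    have := (((differentiableAt_riemannZeta hne).pow 2).mul (cpow_diff hV _)).mul
      (gamma_diff k hk hre)
    exact this.continuousAt
  exact ContinuousAt.comp (f := fun y : ℝ => (x : ℂ) + (y : ℂ) * I) h2 (by fun_prop)

theorem F_integrable (k : ℕ) (hk : 1 ≤ k) {V : ℝ} (hV : 0 < V) {x : ℝ} (hx0 : -(1 / 4) ≤ x)
    (hx2 : x ≤ 2) (hx : x ≠ 1) : Integrable (fun y : ℝ => F k V ((x : ℂ) + (y : ℂ) * I)) := by
  obtain ⟨C, hC, hb⟩ := F_bound k hk hV
  have hcont := F_cont k hk hV (by linarith : -1 < x) hx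
  have key : ∀ y : ℝ, 1 ≤ |y| → ‖F k V ((x : ℂ) + (y : ℂ) * I)‖ ≤ 2 * C * ‖(1 + y ^ 2)⁻¹‖ := by
    intro y hy
    have h1 := hb ((x : ℂ) + (y : ℂ) * I) (by simpa using hx0) (by simpa using hx2)
      (by simpa using hy)
    have e : ((x : ℂ) + (y : ℂ) * I).im = y := by simp
    rw [e, sq_abs] at h1
    refine h1.trans ?_
    have hy2 : 1 ≤ y ^ 2 := by
      rw [← sq_abs]
      exact one_le_pow₀ hy
    rw [Real.norm_of_nonneg (by positivity), ← div_eq_mul_inv,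
      div_le_div_iff₀ (by linarith) (by linarith)]
    nlinarith
  have hint : Integrable (fun y : ℝ => (1 + y ^ 2)⁻¹) := integrable_inv_one_add_sq
  refine hcont.locallyIntegrable.integrable_of_isBigO_atBot_atTop (g := fun y : ℝ => (1 + y ^ 2)⁻¹)
    (g' := fun y : ℝ => (1 + y ^ 2)⁻¹) ?_ (hint.integrableAtFilter _) ?_ (hint.integrableAtFilter _)
  · refine Asymptotics.IsBigO.of_bound (2 * C) ?_
    filter_upwards [eventually_le_atBot (-1 : ℝ)] with y hy
    exact key y (by rw [abs_of_nonpos (by linarith)]; linarith)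
  · refine Asymptotics.IsBigO.of_bound (2 * C) ?_
    filter_upwards [eventually_ge_atTop (1 : ℝ)] with y hy
    exact key y (by rw [abs_of_nonneg (by linarith)]; exact hy)

end T5

open T5

/-- T5. the polar term. -/
theorem zeta2_shift (k : ℕ) (hk : 1 ≤ k) (V : ℝ) (hV : 0 < V) :
    Integrable (fun τ : ℝ => riemannZeta ((2 : ℝ) + τ * I) ^ 2 * (V : ℂ) ^ ((2 : ℝ) + τ * I : ℂ) *
          Complex.Gamma ((2 : ℝ) + τ * I + k)) ∧
    Integrable (fun τ : ℝ => riemannZeta (((-(1 / 4) : ℝ) : ℂ) + τ * I) ^ 2 *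
          (V : ℂ) ^ (((-(1 / 4) : ℝ) : ℂ) + τ * I : ℂ) *
          Complex.Gamma (((-(1 / 4) : ℝ) : ℂ) + τ * I + k)) ∧
    (∫ τ : ℝ, riemannZeta ((2 : ℝ) + τ * I) ^ 2 * (V : ℂ) ^ ((2 : ℝ) + τ * I : ℂ) *
          Complex.Gamma ((2 : ℝ) + τ * I + k)) =
      2 * (Real.pi : ℂ) * (((k.factorial : ℝ) * V * (Real.log V + bk k) : ℝ) : ℂ) +
      ∫ τ : ℝ, riemannZeta (((-(1 / 4) : ℝ) : ℂ) + τ * I) ^ 2 *
          (V : ℂ) ^ (((-(1 / 4) : ℝ) : ℂ) + τ * I : ℂ) *
          Complex.Gamma (((-(1 / 4) : ℝ) : ℂ) + τ * I + k) := by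
  have i1 := F_integrable k hk hV (x := 2) (by norm_num) le_rfl (by norm_num)
  have i0 := F_integrable k hk hV (x := -(1 / 4)) le_rfl (by norm_num) (by norm_num)
  refine ⟨i1, i0, ?_⟩
  obtain ⟨G, hG, hF⟩ := expand k hk hV
  obtain ⟨C, hC, hb⟩ := F_bound k hk hV
  have key := Pool.Agent.H950R2.Shift3.shift3 (F k V) G
    ((((k.factorial : ℝ) * V * (Real.log V + bk k) : ℝ)) : ℂ) ((V : ℂ) * (k.factorial : ℂ)) 0
    (-(1 / 4)) 2 C (by norm_num) (by norm_num) hF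
    (fun z h0 _ => hG z (by linarith)) (fun z h0 h1 h2 => by
      refine (hb z h0 h1 h2).trans ?_
      have h3 : |z.im| ≤ |z.im| ^ 2 := by nlinarith
      have h4 : 0 < |z.im| := by linarith
      gcongr) i0 i1
  rw [← key]
  simp only [F]
  ring

end

end Pool.Agent.H58R2.EM
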