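import Pool.Agent.H923R2.FP.Stubs

/-! Task DERSD: `τ(s D(w))`. -/

set_option autoImplicit false
set_option linter.unusedSectionVars false

noncomputable section

namespace Pool.Agent.H923R2.FP.T_DERSD

open Pool.Agent.H923R2.FP

variable {A Q R : Type} [CStarAlgebra A] [Ring Q] [StarRing Q] [Algebra ℂ Q]
  [Ring R] [StarRing R] [Algebra ℂ R]

lemma ssum_zero (l w : List (Lt Q R)) :
    ssum (fun _ _ => (0 : ℂ)) l w = 0 := by
  induction w generalizing l with
  | nil => rfl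
  | cons z w ih => rw [ssum_cons, ih]; simp

lemma ssum_mul (c : ℂ) (f : List (Lt Q R) → List (Lt Q R) → ℂ) (l w : List (Lt Q R)) :
    ssum (fun a b => c * f a b) l w = c * ssum f l w :=
  (ssum_map (AddMonoidHom.mulLeft c) f l w).symm

/-- Schwinger–Dyson equation with a middle element `m`, with correction `c` -/
def Mid (τ : A →ₗ[ℂ] ℂ) (θ : Lt Q R → A) (s m : A)
    (c : List (Lt Q R) → List (Lt Q R) → ℂ) : Prop :=
  ∀ l w : List (Lt Q R), τ (s * ev θ l * m * ev θ w) =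
    ssum (fun a b => τ (ev θ a) * τ (ev θ b * m * ev θ w)) [] l +
    ssum (fun a b => τ (ev θ l * m * ev θ a) * τ (ev θ b)) [] w + c l w

lemma mid_zero (τ : A →ₗ[ℂ] ℂ) (θ : Lt Q R → A) (s : A) : Mid τ θ s 0 (fun _ _ => 0) := by
  intro l w
  simp only [mul_zero, zero_mul, map_zero, ssum_zero, add_zero]

lemma mid_add {τ : A →ₗ[ℂ] ℂ} {θ : Lt Q R → A} {s m m' : A}
    {c c' : List (Lt Q R) → List (Lt Q R) → ℂ} (h : Mid τ θ s m c) (h' : Mid τ θ s m' c') :
    Mid τ θ s (m + m') (fun l w => c l w + c' l w) := by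
  intro l w
  have e1 := h l w
  have e2 := h' l w
  have e3 : ssum (fun a b => τ (ev θ a) * τ (ev θ b * (m + m') * ev θ w)) [] l =
      ssum (fun a b => τ (ev θ a) * τ (ev θ b * m * ev θ w)) [] l +
      ssum (fun a b => τ (ev θ a) * τ (ev θ b * m' * ev θ w)) [] l := by
    rw [← ssum_add]
    refine ssum_congr (fun a b => ?_) _ _
    rw [mul_add, add_mul, map_add, mul_add]
  have e4 : ssum (fun a b => τ (ev θ l * (m + m') * ev θ a) * τ (ev θ b)) [] w =
      ssum (fun a b => τ (ev θ l * m * ev θ a) * τ (ev θ b)) [] w +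
      ssum (fun a b => τ (ev θ l * m' * ev θ a) * τ (ev θ b)) [] w := by
    rw [← ssum_add]
    refine ssum_congr (fun a b => ?_) _ _
    rw [mul_add, add_mul, map_add, add_mul]
  rw [e3, e4, mul_add, add_mul, map_add, e1, e2]
  ring

lemma mid_smul {τ : A →ₗ[ℂ] ℂ} {θ : Lt Q R → A} {s m : A}
    {c : List (Lt Q R) → List (Lt Q R) → ℂ} (k : ℂ) (h : Mid τ θ s m c) :
    Mid τ θ s (k • m) (fun l w => k * c l w) := by
  intro l w
  have e1 := h l w
  have e3 : ssum (fun a b => τ (ev θ a) * τ (ev θ b * (k • m) * ev θ w)) [] l =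
      k * ssum (fun a b => τ (ev θ a) * τ (ev θ b * m * ev θ w)) [] l := by
    rw [← ssum_mul]
    refine ssum_congr (fun a b => ?_) _ _
    rw [mul_smul_comm, smul_mul_assoc, map_smul, smul_eq_mul]
    ring
  have e4 : ssum (fun a b => τ (ev θ l * (k • m) * ev θ a) * τ (ev θ b)) [] w =
      k * ssum (fun a b => τ (ev θ l * m * ev θ a) * τ (ev θ b)) [] w := by
    rw [← ssum_mul]
    refine ssum_congr (fun a b => ?_) _ _
    rw [mul_smul_comm, smul_mul_assoc, map_smul, smul_eq_mul]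
    ring
  rw [e3, e4, mul_smul_comm, smul_mul_assoc, map_smul, smul_eq_mul, e1]
  ring

lemma mid_word {τ : A →ₗ[ℂ] ℂ} {π : Q →⋆ₐ[ℂ] A} {ρ : R →⋆ₐ[ℂ] A} {s : A} (hS : Sys τ π ρ s)
    (v : List (Lt Q R)) : Mid τ (vl π ρ s) s (ev (vl π ρ s) v)
      (fun l w => ssum (fun a b => τ (ev (vl π ρ s) l * ev (vl π ρ s) a) *
        τ (ev (vl π ρ s) b * ev (vl π ρ s) w)) [] v) := by
  intro l w
  have h := hS.sd (l ++ v ++ w)
  set θ := vl π ρ s with hθ
  rw [ssum_append, ssum_append] at h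
  have e0 : s * ev θ l * ev θ v * ev θ w = s * ev θ (l ++ v ++ w) := by
    rw [ev_append, ev_append]
    simp only [mul_assoc]
  have e1 : ssum (fun a b => τ (ev θ a) * τ (ev θ (b ++ v ++ w))) [] l =
      ssum (fun a b => τ (ev θ a) * τ (ev θ b * ev θ v * ev θ w)) [] l :=
    ssum_congr (fun a b => by rw [ev_append, ev_append]) _ _
  have e2 : ssum (fun a b => τ (ev θ a) * τ (ev θ (b ++ w))) ([] ++ l) v =
      ssum (fun a b => τ (ev θ l * ev θ a) * τ (ev θ b * ev θ w)) [] v := by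
    rw [List.nil_append, ← List.append_nil l, ssum_shift, List.append_nil]
    refine ssum_congr (fun a b => ?_) _ _
    rw [ev_append, ev_append]
  have e3 : ssum (fun a b => τ (ev θ a) * τ (ev θ b)) ([] ++ (l ++ v)) w =
      ssum (fun a b => τ (ev θ l * ev θ v * ev θ a) * τ (ev θ b)) [] w := by
    rw [List.nil_append, ← List.append_nil (l ++ v), ssum_shift]
    refine ssum_congr (fun a b => ?_) _ _
    rw [ev_append, ev_append]
  rw [e0, h, e1, e2, e3]
  ring

lemma mid_congr {τ : A →ₗ[ℂ] ℂ} {θ : Lt Q R → A} {s m m' : A}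
    {c c' : List (Lt Q R) → List (Lt Q R) → ℂ} (h : Mid τ θ s m c) (hm : m = m')
    (hc : ∀ l w, c l w = c' l w) : Mid τ θ s m' c' := by
  subst hm
  intro l w
  rw [h l w, hc]

lemma mid_noS {τ : A →ₗ[ℂ] ℂ} {π : Q →⋆ₐ[ℂ] A} {ρ : R →⋆ₐ[ℂ] A} {s : A} (hS : Sys τ π ρ s)
    (p : List (Lt Q R)) (hp : ∀ z ∈ p, z.isS = false) :
    Mid τ (vl π ρ s) s (ev (vl π ρ s) p) (fun _ _ => 0) :=
  mid_congr (mid_word hS p) rfl fun _ _ => ssum_noS _ _ _ hp

lemma mid_aSb {τ : A →ₗ[ℂ] ℂ} {π : Q →⋆ₐ[ℂ] A} {ρ : R →⋆ₐ[ℂ] A} {s : A} (hS : Sys τ π ρ s)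
    (a b : List (Lt Q R)) (ha : ∀ z ∈ a, z.isS = false) (hb : ∀ z ∈ b, z.isS = false) :
    Mid τ (vl π ρ s) s (ev (vl π ρ s) a * s * ev (vl π ρ s) b)
      (fun l w => τ (ev (vl π ρ s) l * ev (vl π ρ s) a) * τ (ev (vl π ρ s) b * ev (vl π ρ s) w)) := by
  refine mid_congr (mid_word hS (a ++ (Lt.s :: b))) ?_ ?_
  · rw [ev_append, ev_cons, vl_s, mul_assoc]
  · intro l w
    rw [ssum_append, ssum_noS _ _ _ ha, ssum_cons, ssum_noS _ _ _ hb]
    simp [Lt.isS]

/-- the middle element `δ (q x)` -/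
lemma mid_q {τ : A →ₗ[ℂ] ℂ} {π : Q →⋆ₐ[ℂ] A} {ρ : R →⋆ₐ[ℂ] A} {s : A} (hT : FTS τ)
    (hS : Sys τ π ρ s) (x : Q) (L : List (ℂ × List (Lt Q R) × List (Lt Q R)))
    (hL : ∀ y ∈ L, (∀ z ∈ y.2.1, z.isS = false) ∧ ∀ z ∈ y.2.2, z.isS = false) :
    Mid τ (vl π ρ s) s
      (π x * (L.map fun y => y.1 • (ev (vl π ρ s) y.2.1 * s * ev (vl π ρ s) y.2.2)).sum -
        (L.map fun y => y.1 • (ev (vl π ρ s) y.2.1 * s * ev (vl π ρ s) y.2.2)).sum * π x)
      (fun l w => (L.map fun y => y.1 *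
        (τ (ev (vl π ρ s) y.2.1 * ev (vl π ρ s) l * π x) *
            τ (ev (vl π ρ s) w * ev (vl π ρ s) y.2.2) -
          τ (ev (vl π ρ s) y.2.1 * ev (vl π ρ s) l) *
            τ (π x * ev (vl π ρ s) w * ev (vl π ρ s) y.2.2))).sum) := by
  induction L with
  | nil =>
    refine mid_congr (mid_zero τ (vl π ρ s) s) ?_ ?_
    · simp
    · intro l w; simp
  | cons y L ih =>
    have hy := hL y (by simp)
    have ih' := ih fun y' hy' => hL y' (List.mem_cons_of_mem _ hy')
    have h1 := mid_aSb hS (Lt.q x :: y.2.1) y.2.2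
      (by
        intro z hz
        rcases List.mem_cons.1 hz with rfl | hz
        · rfl
        · exact hy.1 z hz) hy.2
    have h2 := mid_aSb hS y.2.1 (y.2.2 ++ [Lt.q x]) hy.1
      (by
        intro z hz
        rcases List.mem_append.1 hz with hz | hz
        · exact hy.2 z hz
        · rw [List.mem_singleton] at hz
          rw [hz]
          rfl)
    have h3 := mid_add (mid_smul y.1 (mid_add h1 (mid_smul (-1) h2))) ih'
    refine mid_congr h3 ?_ ?_
    · simp only [List.map_cons, List.sum_cons, ev_cons, ev_append, ev_nil, vl_q, mul_one]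
      simp only [mul_add, add_mul, smul_add, mul_smul_comm, smul_mul_assoc, mul_assoc, neg_smul,
        one_smul, smul_neg]
      abel
    · intro l w
      simp only [List.map_cons, List.sum_cons, ev_cons, ev_append, ev_nil, vl_q, mul_one]
      congr 1
      set al := ev (vl π ρ s) y.2.1
      set bl := ev (vl π ρ s) y.2.2
      set el := ev (vl π ρ s) l
      set ew := ev (vl π ρ s) w
      have e1 : τ (el * (π x * al)) = τ (al * el * π x) := by
        rw [← mul_assoc, hT.comm, ← mul_assoc]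
      have e2 : τ (bl * ew) = τ (ew * bl) := hT.comm _ _
      have e3 : τ (el * al) = τ (al * el) := hT.comm _ _
      have e4 : τ (bl * π x * ew) = τ (π x * ew * bl) := by
        rw [mul_assoc, hT.comm]
      rw [e1, e2, e3, e4]
      ring

/-- the correction for the letter `z` -/
def cor (τ : A →ₗ[ℂ] ℂ) (θ : Lt Q R → A) (L : List (ℂ × List (Lt Q R) × List (Lt Q R)))
    (z : Lt Q R) (l w : List (Lt Q R)) : ℂ :=
  Complex.I * (L.map fun y => y.1 * (if z.isQ then
        (τ (ev θ y.2.1 * ev θ l * θ z) * τ (ev θ w * ev θ y.2.2) -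
          τ (ev θ y.2.1 * ev θ l) * τ (θ z * ev θ w * ev θ y.2.2)) else 0)).sum

lemma mid_letter {τ : A →ₗ[ℂ] ℂ} {π : Q →⋆ₐ[ℂ] A} {ρ : R →⋆ₐ[ℂ] A} {s : A} (hT : FTS τ)
    (hS : Sys τ π ρ s) (L : List (ℂ × List (Lt Q R) × List (Lt Q R))) (p : List (Lt Q R))
    (hL : ∀ y ∈ L, (∀ z ∈ y.2.1, z.isS = false) ∧ ∀ z ∈ y.2.2, z.isS = false)
    (hp : ∀ z ∈ p, z.isS = false) (h : A)
    (hh : h = (L.map fun y => y.1 • (ev (vl π ρ s) y.2.1 * s * ev (vl π ρ s) y.2.2)).sum)
    (z : Lt Q R) :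
    Mid τ (vl π ρ s) s (dl π h (ev (vl π ρ s) p) z) (cor τ (vl π ρ s) L z) := by
  cases z with
  | q x =>
    refine mid_congr (mid_smul Complex.I (mid_q hT hS x L hL)) ?_ ?_
    · rw [← hh]
      rfl
    · intro l w
      simp only [cor, Lt.isQ, if_true, vl_q]
  | r x =>
    refine mid_congr (mid_zero τ (vl π ρ s) s) rfl ?_
    intro l w
    simp [cor, Lt.isQ]
  | s =>
    refine mid_congr (mid_smul (-1) (mid_noS hS p hp)) ?_ ?_
    · simp [dl]
    · intro l w
      simp [cor, Lt.isQ]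

lemma main {τ : A →ₗ[ℂ] ℂ} {π : Q →⋆ₐ[ℂ] A} {ρ : R →⋆ₐ[ℂ] A} {s : A} (hT : FTS τ)
    (hS : Sys τ π ρ s) (L : List (ℂ × List (Lt Q R) × List (Lt Q R))) (p : List (Lt Q R))
    (hL : ∀ y ∈ L, (∀ z ∈ y.2.1, z.isS = false) ∧ ∀ z ∈ y.2.2, z.isS = false)
    (hp : ∀ z ∈ p, z.isS = false) (h : A)
    (hh : h = (L.map fun y => y.1 • (ev (vl π ρ s) y.2.1 * s * ev (vl π ρ s) y.2.2)).sum)
    (w : List (Lt Q R)) : ∀ l : List (Lt Q R),
    τ (s * ev (vl π ρ s) l * der (vl π ρ s) (dl π h (ev (vl π ρ s) p)) w) =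
    ssum (fun a b => τ (ev (vl π ρ s) a) *
      τ (ev (vl π ρ s) b * der (vl π ρ s) (dl π h (ev (vl π ρ s) p)) w)) [] l +
    ssum (fun a b =>
      τ (ev (vl π ρ s) l * der (vl π ρ s) (dl π h (ev (vl π ρ s) p)) a) * τ (ev (vl π ρ s) b) +
      τ (ev (vl π ρ s) l * ev (vl π ρ s) a) *
        τ (der (vl π ρ s) (dl π h (ev (vl π ρ s) p)) b)) [] w +
    Complex.I * (L.map fun x => x.1 *
      phi τ (vl π ρ s) (ev (vl π ρ s) x.2.2) (ev (vl π ρ s) x.2.1 * ev (vl π ρ s) l) w).sum := by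
  set θ := vl π ρ s with hθ
  set δ := dl π h (ev θ p) with hδ
  induction w with
  | nil =>
    intro l
    simp [ssum_zero]
  | cons z w ih =>
    intro l
    have hm := mid_letter hT hS L p hL hp h hh z l w
    rw [← hθ, ← hδ] at hm
    have hi := ih (l ++ [z])
    -- left hand side
    have e0 : τ (s * ev θ l * der θ δ (z :: w)) =
        τ (s * ev θ l * δ z * ev θ w) + τ (s * ev θ (l ++ [z]) * der θ δ w) := by
      rw [der_cons, mul_add, map_add, ev_append, ev_cons, ev_nil, mul_one]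
      simp only [mul_assoc]
    -- first sum
    have e1 : ssum (fun a b => τ (ev θ a) * τ (ev θ b * der θ δ (z :: w))) [] l =
        ssum (fun a b => τ (ev θ a) * τ (ev θ b * δ z * ev θ w)) [] l +
        ssum (fun a b => τ (ev θ a) * τ (ev θ b * (θ z * der θ δ w))) [] l := by
      rw [← ssum_add]
      refine ssum_congr (fun a b => ?_) _ _
      rw [der_cons, mul_add, map_add, mul_add, mul_assoc (ev θ b) (δ z) (ev θ w)]
    have e2 : ssum (fun a b => τ (ev θ a) * τ (ev θ b * der θ δ w)) [] (l ++ [z]) =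
        ssum (fun a b => τ (ev θ a) * τ (ev θ b * (θ z * der θ δ w))) [] l +
        (if z.isS then τ (ev θ l) * τ (der θ δ w) else 0) := by
      rw [ssum_append, ssum_cons, ssum_nil, add_zero]
      congr 1
      · refine ssum_congr (fun a b => ?_) _ _
        rw [ev_append, ev_cons, ev_nil, mul_one, mul_assoc]
      · rw [ev_nil, one_mul, List.nil_append]
    -- second sum
    have e3 : ssum (fun a b => τ (ev θ l * der θ δ a) * τ (ev θ b) +
          τ (ev θ l * ev θ a) * τ (der θ δ b)) [] (z :: w) =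
        (if z.isS then τ (ev θ l) * τ (der θ δ w) else 0) +
        (ssum (fun a b => τ (ev θ l * δ z * ev θ a) * τ (ev θ b)) [] w +
        ssum (fun a b => τ (ev θ (l ++ [z]) * der θ δ a) * τ (ev θ b) +
          τ (ev θ (l ++ [z]) * ev θ a) * τ (der θ δ b)) [] w) := by
      rw [ssum_cons, ← ssum_add]
      congr 1
      · rw [der_nil, mul_zero, map_zero, zero_mul, zero_add, ev_nil, mul_one]
      · have e5 : ([] ++ [z] : List (Lt Q R)) = [z] ++ [] := rfl
        rw [e5, ssum_shift]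
        refine ssum_congr (fun a b => ?_) _ _
        rw [List.singleton_append, der_cons, ev_cons, ev_append, ev_cons, ev_nil, mul_one,
          mul_add, map_add]
        simp only [mul_assoc]
        ring
    -- third sum
    have e4 : Complex.I * (L.map fun x => x.1 *
        phi τ θ (ev θ x.2.2) (ev θ x.2.1 * ev θ l) (z :: w)).sum =
        cor τ θ L z l w + Complex.I * (L.map fun x => x.1 *
          phi τ θ (ev θ x.2.2) (ev θ x.2.1 * ev θ (l ++ [z])) w).sum := by
      unfold cor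
      rw [← mul_add, ← List.sum_map_add]
      congr 2
      refine List.map_congr_left fun x _ => ?_
      rw [phi_cons, mul_add, ev_append, ev_cons, ev_nil, mul_one]
      simp only [mul_assoc]
    rw [e0, hm, hi, e1, e2, e3, e4]
    ring

theorem t_DERSD : S_DERSD := by
  intro A Q R _ _ _ _ _ _ _ τ π ρ s hT hS L p hL hp h hh w
  have h1 := main hT hS L p hL hp h hh w []
  simp only [ev_nil, mul_one, one_mul, ssum_nil, zero_add] at h1
  exact h1

end Pool.Agent.H923R2.FP.T_DERSD
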