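import Pool.Agent.H306R2.RZ.Stubs4
import Pool.Agent.H306R2.RZ.Stubs7

set_option autoImplicit false

/-! Project RZ, task SP2: the large sieve inequality for discriminants with few split primes. -/

namespace Pool.Agent.H58R2.RZ7SP2

open Finset Filter Topology MeasureTheory Pool.Agent.H306R2.RZ

noncomputable section

theorem js_mul_left (a b : ℤ) (n : ℕ) : js (a * b) n = js a n * js b n := by
  unfold js
  rw [jacobiSym.mul_left]
  push_cast
  ring

theorem js_mul (k : ℤ) (a b : ℕ) (ha : a ≠ 0) (hb : b ≠ 0) : js k (a * b) = js k a * js k b := by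
  have : NeZero a := ⟨ha⟩
  have : NeZero b := ⟨hb⟩
  unfold js
  rw [jacobiSym.mul_right]; push_cast; ring

theorem js_tri (k : ℤ) (n : ℕ) : js k n = -1 ∨ js k n = 0 ∨ js k n = 1 := by
  unfold js
  rcases jacobiSym.trichotomy k n with h | h | h <;> rw [h] <;> simp

theorem js_abs (k : ℤ) (n : ℕ) : |js k n| ≤ 1 := by
  rcases js_tri k n with h | h | h <;> rw [h] <;> simp

theorem js_prod (k : ℤ) (S : Finset ℕ) (hS : ∀ p ∈ S, p ≠ 0) :
    js k (∏ p ∈ S, p) = ∏ p ∈ S, js k p := by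
  induction S using Finset.induction with
  | empty => simp [js]
  | insert p S hp ih =>
    have h1 : ∀ q ∈ S, q ≠ 0 := fun q hq => hS q (mem_insert_of_mem hq)
    rw [prod_insert hp, prod_insert hp, js_mul k _ _ (hS p (mem_insert_self _ _))
      (prod_ne_zero_iff.2 h1), ih h1]

theorem sqf_prod (S : Finset ℕ) (hS : ∀ p ∈ S, p.Prime ∧ Odd p) :
    Squarefree (∏ p ∈ S, p) ∧ Odd (∏ p ∈ S, p) := by
  induction S using Finset.induction with
  | empty => simp
  | insert p S hp ih =>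
    have h1 : ∀ q ∈ S, q.Prime ∧ Odd q := fun q hq => hS q (mem_insert_of_mem hq)
    have h2 := hS p (mem_insert_self _ _)
    have h3 : Nat.Coprime p (∏ q ∈ S, q) := by
      apply Nat.Coprime.prod_right
      intro q hq
      rw [Nat.coprime_primes h2.1 (h1 q hq).1]
      rintro rfl
      exact hp hq
    rw [prod_insert hp]
    refine ⟨(Nat.squarefree_mul h3).2 ⟨h2.1.squarefree, (ih h1).1⟩, h2.2.mul (ih h1).2⟩

theorem omega_le (s M : ℕ) (hs : 1 ≤ s) (hsM : s ≤ M) : s.primeFactors.card ≤ Nat.log 2 M := by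
  have h1 : 2 ^ s.primeFactors.card ≤ s := by
    calc 2 ^ s.primeFactors.card = ∏ _p ∈ s.primeFactors, 2 := by rw [prod_const]
      _ ≤ ∏ p ∈ s.primeFactors, p :=
        prod_le_prod' fun p hp => (Nat.prime_of_mem_primeFactors hp).two_le
      _ ≤ s := Nat.le_of_dvd hs (Nat.prod_primeFactors_dvd s)
  exact Nat.le_log_of_pow_le (by norm_num) (h1.trans hsM)

theorem SP2_of (hLS : ∀ ε : ℝ, 0 < ε → ∃ C : ℝ, 0 < C ∧ ∀ M N : ℕ, 1 ≤ M → 1 ≤ N →
      LSB M N (C * ((M : ℝ) * N) ^ ε * (M + N)))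
    (hSP1 : ∀ (P : Finset ℕ) (x : ℕ → ℝ), (∀ p ∈ P, x p = -1 ∨ x p = 0 ∨ x p = 1) →
      ∀ k m N : ℕ, (P.filter (fun p => x p = 1)).card ≤ m →
      N ≤ (P.filter (fun p => x p = -1)).card → 4 * m * k + k ≤ N →
      (N.choose k : ℝ) / 2 ≤ |∑ S ∈ P.powersetCard k, ∏ p ∈ S, x p|)
    (ε : ℝ) (hε : 0 < ε) : ∃ C : ℝ, 0 < C ∧ ∀ M y k m N : ℕ, 1 ≤ M → 2 ≤ y →
    4 * m * k + k ≤ N → N + m + Nat.log 2 M ≤ ((Icc 1 y).filter (fun p => p.Prime ∧ Odd p)).card →
    (((sqf M).filter (fun s : ℕ =>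
        ((Icc 1 y).filter (fun p => p.Prime ∧ Odd p ∧ js (-(s : ℤ)) p = 1)).card ≤ m)).card : ℝ) *
      ((N.choose k : ℝ) / 2) ^ 2 ≤
      C * ((M : ℝ) * (y : ℝ) ^ k) ^ ε * (M + (y : ℝ) ^ k) *
        (((Icc 1 y).filter (fun p => p.Prime ∧ Odd p)).card.choose k : ℝ) := by
  classical
  obtain ⟨C, hC, hLS⟩ := hLS ε hε
  refine ⟨C, hC, ?_⟩
  intro M y k m N hM hy hmk hN
  set P := (Icc 1 y).filter (fun p => p.Prime ∧ Odd p) with hP
  have hPp : ∀ p ∈ P, p.Prime ∧ Odd p := fun p hp => (mem_filter.1 hp).2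
  have hPy : ∀ p ∈ P, p ≤ y := fun p hp => (mem_Icc.1 (mem_filter.1 hp).1).2
  have hyk : 1 ≤ y ^ k := Nat.one_le_pow _ _ (by omega)
  set T : Finset ℕ := (P.powersetCard k).image (fun S => ∏ p ∈ S, p) with hT
  have hinj : ∀ S ∈ P.powersetCard k, ∀ S' ∈ P.powersetCard k,
      (∏ p ∈ S, p) = (∏ p ∈ S', p) → S = S' := by
    intro S hS S' hS' h
    rw [mem_powersetCard] at hS hS'
    have e1 := Nat.primeFactors_prod (s := S) fun p hp => (hPp p (hS.1 hp)).1
    have e2 := Nat.primeFactors_prod (s := S') fun p hp => (hPp p (hS'.1 hp)).1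
    rw [← e1, ← e2, h]
  have hTsub : T ⊆ osf (y ^ k) := by
    intro n hn
    rw [hT, mem_image] at hn
    obtain ⟨S, hS, rfl⟩ := hn
    rw [mem_powersetCard] at hS
    have h1 := sqf_prod S fun p hp => hPp p (hS.1 hp)
    have h2 : ∏ p ∈ S, p ≤ y ^ k := by
      rw [← hS.2]
      exact prod_le_pow_card _ _ _ fun p hp => hPy p (hS.1 hp)
    rw [osf, mem_filter, mem_Icc]
    exact ⟨⟨Nat.one_le_iff_ne_zero.2 (Squarefree.ne_zero h1.1), h2⟩, h1.2, h1.1⟩
  set a : ℕ → ℂ := fun n => if n ∈ T then ((js (-1) n : ℝ) : ℂ) else 0 with ha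
  have hB := hLS M (y ^ k) hM hyk a
  -- the sum of squares of the coefficients
  have hsq : ∑ n ∈ osf (y ^ k), ‖a n‖ ^ 2 ≤ (P.card.choose k : ℝ) := by
    calc ∑ n ∈ osf (y ^ k), ‖a n‖ ^ 2 ≤ ∑ n ∈ osf (y ^ k), (if n ∈ T then (1 : ℝ) else 0) := by
          refine sum_le_sum fun n _ => ?_
          simp only [ha]
          split_ifs
          · rw [Complex.norm_real, Real.norm_eq_abs]
            exact pow_le_one₀ (abs_nonneg _) (js_abs _ _)
          · simp
      _ = (T.card : ℝ) := by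
          rw [sum_ite_mem, inter_eq_right.2 hTsub]
          simp
      _ ≤ (P.card.choose k : ℝ) := by
          have : T.card ≤ P.card.choose k := by
            rw [← card_powersetCard]
            exact card_image_le
          exact_mod_cast this
  -- the inner sums
  have hinner : ∀ s : ℕ, ∑ n ∈ osf (y ^ k), a n * (js s n : ℂ) =
      ((∑ S ∈ P.powersetCard k, ∏ p ∈ S, js (-(s : ℤ)) p : ℝ) : ℂ) := by
    intro s
    have e1 : ∑ n ∈ osf (y ^ k), a n * (js s n : ℂ) = ∑ n ∈ T, ((js (-(s : ℤ)) n : ℝ) : ℂ) := by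
      rw [← sum_subset hTsub]
      · refine sum_congr rfl fun n hn => ?_
        simp only [ha]
        rw [if_pos hn, ← Complex.ofReal_mul, ← js_mul_left, neg_one_mul]
      · intro n _ hn
        simp only [ha]
        rw [if_neg hn, zero_mul]
    rw [e1, hT, sum_image hinj, ← Complex.ofReal_sum]
    congr 1
    refine sum_congr rfl fun S hS => ?_
    rw [mem_powersetCard] at hS
    exact js_prod _ _ fun p hp => (hPp p (hS.1 hp)).1.ne_zero
  set F := (sqf M).filter (fun s : ℕ =>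
    ((Icc 1 y).filter (fun p => p.Prime ∧ Odd p ∧ js (-(s : ℤ)) p = 1)).card ≤ m) with hF
  -- lower bound
  have hlow : ∀ s ∈ F, ((N.choose k : ℝ) / 2) ^ 2 ≤
      ‖∑ n ∈ osf (y ^ k), a n * (js s n : ℂ)‖ ^ 2 := by
    intro s hs
    rw [hF, mem_filter, sqf, mem_filter, mem_Icc] at hs
    obtain ⟨⟨⟨hs1, hsM⟩, -⟩, hsm⟩ := hs
    rw [hinner, Complex.norm_real, Real.norm_eq_abs]
    refine pow_le_pow_left₀ (by positivity) ?_ 2
    have hf1 : (P.filter (fun p => js (-(s : ℤ)) p = 1)).card ≤ m := by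
      have : P.filter (fun p => js (-(s : ℤ)) p = 1) =
          (Icc 1 y).filter (fun p => p.Prime ∧ Odd p ∧ js (-(s : ℤ)) p = 1) := by
        rw [hP, filter_filter]
        refine filter_congr fun p _ => ?_
        tauto
      rw [this]
      exact hsm
    have hf0 : (P.filter (fun p => js (-(s : ℤ)) p = 0)).card ≤ Nat.log 2 M := by
      refine le_trans (card_le_card ?_) (omega_le s M hs1 hsM)
      intro p hp
      rw [mem_filter] at hp
      have hpp := (hPp p hp.1).1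
      rw [Nat.mem_primeFactors]
      refine ⟨hpp, ?_, by omega⟩
      have h1 : jacobiSym (-(s : ℤ)) p = 0 := by
        have := hp.2
        unfold js at this
        exact_mod_cast this
      rw [jacobiSym.eq_zero_iff] at h1
      have h2 := h1.2
      rw [Int.neg_gcd] at h2
      by_contra h3
      apply h2
      have h4 : Nat.Coprime s p := ((Nat.Prime.coprime_iff_not_dvd hpp).2 h3).symm
      exact_mod_cast h4
    have hcard : P.card ≤ (P.filter (fun p => js (-(s : ℤ)) p = -1)).card +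
        (P.filter (fun p => js (-(s : ℤ)) p = 0)).card +
        (P.filter (fun p => js (-(s : ℤ)) p = 1)).card := by
      have : P ⊆ (P.filter (fun p => js (-(s : ℤ)) p = -1)) ∪
          (P.filter (fun p => js (-(s : ℤ)) p = 0)) ∪
          (P.filter (fun p => js (-(s : ℤ)) p = 1)) := by
        intro p hp
        rw [mem_union, mem_union]
        rcases js_tri (-(s : ℤ)) p with h | h | h
        · exact Or.inl (Or.inl (mem_filter.2 ⟨hp, h⟩))
        · exact Or.inl (Or.inr (mem_filter.2 ⟨hp, h⟩))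
        · exact Or.inr (mem_filter.2 ⟨hp, h⟩)
      refine (card_le_card this).trans ?_
      refine (card_union_le _ _).trans ?_
      have := card_union_le (P.filter (fun p => js (-(s : ℤ)) p = -1))
        (P.filter (fun p => js (-(s : ℤ)) p = 0))
      omega
    exact hSP1 P (fun p => js (-(s : ℤ)) p) (fun p _ => js_tri _ _) k m N hf1 (by omega) hmk
  have hsum : (F.card : ℝ) * ((N.choose k : ℝ) / 2) ^ 2 ≤
      ∑ s ∈ sqf M, ‖∑ n ∈ osf (y ^ k), a n * (js s n : ℂ)‖ ^ 2 := by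
    calc (F.card : ℝ) * ((N.choose k : ℝ) / 2) ^ 2 =
        ∑ s ∈ F, ((N.choose k : ℝ) / 2) ^ 2 := by rw [sum_const, nsmul_eq_mul]
      _ ≤ ∑ s ∈ F, ‖∑ n ∈ osf (y ^ k), a n * (js s n : ℂ)‖ ^ 2 := sum_le_sum hlow
      _ ≤ _ := sum_le_sum_of_subset_of_nonneg (filter_subset _ _) fun _ _ _ => by positivity
  have hcast : ((y ^ k : ℕ) : ℝ) = (y : ℝ) ^ k := by push_cast; rfl
  rw [hcast] at hB
  refine (hsum.trans hB).trans ?_
  apply mul_le_mul_of_nonneg_left hsq
  positivity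

/-- the large sieve inequality for discriminants with few split primes -/
theorem SP2 (ε : ℝ) (hε : 0 < ε) : ∃ C : ℝ, 0 < C ∧ ∀ M y k m N : ℕ, 1 ≤ M → 2 ≤ y →
    4 * m * k + k ≤ N → N + m + Nat.log 2 M ≤ ((Icc 1 y).filter (fun p => p.Prime ∧ Odd p)).card →
    (((sqf M).filter (fun s : ℕ =>
        ((Icc 1 y).filter (fun p => p.Prime ∧ Odd p ∧ js (-(s : ℤ)) p = 1)).card ≤ m)).card : ℝ) *
      ((N.choose k : ℝ) / 2) ^ 2 ≤
      C * ((M : ℝ) * (y : ℝ) ^ k) ^ ε * (M + (y : ℝ) ^ k) *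
        (((Icc 1 y).filter (fun p => p.Prime ∧ Odd p)).card.choose k : ℝ) :=
  SP2_of Stubs4.HBLS (fun P x hx k m N hm hN h => Stubs7.SP1 P x hx k m N hm hN h) ε hε

end

end Pool.Agent.H58R2.RZ7SP2
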